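import Pool.Agent.Lib.DR.Iface
import Pool.Agent.Lib.DN.O.All

/-!
# Theorem DR, part O, module O4: the prime above `2` (ramified case)
-/

set_option autoImplicit false

open scoped Pointwise nonZeroDivisors

noncomputable section

namespace Pool.Agent.DR

open Pool.Agent.MuZ Pool.Agent.FW NumberField IsDedekindDomain Pool.Agent.DN

variable {n t : ℕ}

theorem rm_mod [h : Rmf n t] : n % 4 = 1 ∨ n % 4 = 2 := by
  rcases h.out with ⟨h1, -, -⟩ | ⟨-, h2, h3, h4⟩
  · have := h.zero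
    omega
  · have h5 : n % 4 ≠ 0 := by
      intro h6
      have h7 : 2 * 2 ∣ n := Nat.dvd_of_mod_eq_zero h6
      have h8 := h3 2 h7
      rw [Nat.isUnit_iff] at h8
      omega
    omega

private theorem two_cast : (((2 : ℕ) : OO n t)) = 2 := by norm_num

theorem two_dvd_iff (v : OO n t) : (2 : OO n t) ∣ v ↔ (2 : ℤ) ∣ v.re ∧ (2 : ℤ) ∣ v.im := by
  rw [← two_cast, nat_dvd_iff]
  norm_num

private theorem lin_iff (a b : ℤ) : (2 : ℤ) ∣ a + n * b ↔ (2 : ℤ) ∣ a + ((n % 2 : ℕ) : ℤ) * b := by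
  obtain ⟨c, hc⟩ : ∃ c : ℤ, (n : ℤ) = ((n % 2 : ℕ) : ℤ) + 2 * c := ⟨(n : ℤ) / 2, by omega⟩
  have e : a + n * b = (a + ((n % 2 : ℕ) : ℤ) * b) + 2 * (c * b) := by
    linear_combination b * hc
  rw [e]
  exact dvd_add_left (dvd_mul_right _ _)

private theorem Nm_iff [h : Rmf n t] (v : OO n t) : (2 : ℤ) ∣ Nm v ↔ (2 : ℤ) ∣ v.re + n * v.im := by
  have ht := h.zero
  subst ht
  have e : Nm v = (v.re + n * v.im) + (v.re ^ 2 - v.re) + n * (v.im ^ 2 - v.im) := by
    unfold Nm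
    push_cast
    ring
  have h2 : ∀ x : ℤ, (2 : ℤ) ∣ x ^ 2 - x := by
    intro x
    rcases Int.even_or_odd' x with ⟨a, ha | ha⟩
    · exact ⟨2 * a ^ 2 - a, by rw [ha]; ring⟩
    · exact ⟨2 * a ^ 2 + a, by rw [ha]; ring⟩
  rw [e, dvd_add_left ((h2 _).mul_left _), dvd_add_left (h2 _)]

private theorem cases_iff (v : OO n t) : ((2 : OO n t) ∣ v ∨ (2 : OO n t) ∣ v - pO n t) ↔
    (2 : ℤ) ∣ v.re + n * v.im := by
  rw [lin_iff, two_dvd_iff, two_dvd_iff, QuadraticAlgebra.re_sub, QuadraticAlgebra.im_sub]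
  simp only [pO]
  rcases Nat.mod_two_eq_zero_or_one n with h | h <;> rw [h] <;> push_cast <;> omega

private theorem cop_cases (v : OO n t) : ((2 : OO n t) ∣ v - 1 ∨ (2 : OO n t) ∣ v - (1 + pO n t)) ↔
    ¬ (2 : ℤ) ∣ v.re + n * v.im := by
  rw [lin_iff, two_dvd_iff, two_dvd_iff, QuadraticAlgebra.re_sub, QuadraticAlgebra.im_sub,
    QuadraticAlgebra.re_sub, QuadraticAlgebra.im_sub, QuadraticAlgebra.re_add, QuadraticAlgebra.im_add,
    re_one, im_one]
  simp only [pO]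
  rcases Nat.mod_two_eq_zero_or_one n with h | h <;> rw [h] <;> push_cast <;> omega

/-- `2` divides `pO ^ 2`. -/
private theorem pO_sq [h : Rmf n t] : (2 : OO n t) ∣ pO n t ^ 2 := by
  have ht := h.zero
  subst ht
  rw [two_dvd_iff, sq, re_mul, im_mul]
  simp only [pO]
  obtain ⟨c, hc⟩ : ∃ c : ℤ, (n : ℤ) = ((n % 2 : ℕ) : ℤ) + 2 * c := ⟨(n : ℤ) / 2, by omega⟩
  rcases Nat.mod_two_eq_zero_or_one n with h1 | h1
  · rw [h1] at hc ⊢
    exact ⟨⟨-c, by linear_combination -hc⟩, ⟨0, by norm_num⟩⟩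
  · rw [h1] at hc ⊢
    exact ⟨⟨-c, by linear_combination -hc⟩, ⟨1, by norm_num⟩⟩

/-- `2` is in the square of `pp`. -/
private theorem pO_two [h : Rmf n t] : ∃ c : ℤ, ∃ e : ℤ, (2 : OO n t) = 4 * (c : OO n t) + 2 * (e : OO n t) * pO n t -
    pO n t ^ 2 := by
  have hm := rm_mod (n := n) (t := t)
  have ht := h.zero
  subst ht
  rcases hm with h1 | h1
  · obtain ⟨c, hc⟩ : ∃ c : ℤ, (n : ℤ) = 4 * c + 1 := ⟨(n : ℤ) / 4, by omega⟩
    have h2 : n % 2 = 1 := by omega
    refine ⟨-c, 1, ext' ?_ ?_⟩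
    · rw [sq]
      simp only [QuadraticAlgebra.re_sub, QuadraticAlgebra.re_add, re_mul, im_mul, re_int, im_int, pO, h2]
      simp only [QuadraticAlgebra.re_ofNat, QuadraticAlgebra.im_ofNat]
      push_cast
      rw [hc]
      ring
    · rw [sq]
      simp only [QuadraticAlgebra.im_sub, QuadraticAlgebra.im_add, re_mul, im_mul, re_int, im_int, pO, h2]
      simp only [QuadraticAlgebra.re_ofNat, QuadraticAlgebra.im_ofNat]
      push_cast
      ring
  · obtain ⟨c, hc⟩ : ∃ c : ℤ, (n : ℤ) = 4 * c + 2 := ⟨(n : ℤ) / 4, by omega⟩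
    have h2 : n % 2 = 0 := by omega
    refine ⟨-c, 0, ext' ?_ ?_⟩
    · rw [sq]
      simp only [QuadraticAlgebra.re_sub, QuadraticAlgebra.re_add, re_mul, im_mul, re_int, im_int, pO, h2]
      simp only [QuadraticAlgebra.re_ofNat, QuadraticAlgebra.im_ofNat]
      push_cast
      rw [hc]
      ring
    · rw [sq]
      simp only [QuadraticAlgebra.im_sub, QuadraticAlgebra.im_add, re_mul, im_mul, re_int, im_int, pO, h2]
      simp only [QuadraticAlgebra.re_ofNat, QuadraticAlgebra.im_ofNat]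
      push_cast
      ring

theorem mem_pp [h : Rmf n t] (v : OO n t) : v ∈ pp n t ↔ (2 : OO n t) ∣ v ∨ (2 : OO n t) ∣ v - pO n t := by
  constructor
  · intro hv
    obtain ⟨a, b, hab⟩ := Ideal.mem_span_pair.1 hv
    rw [cases_iff]
    have hb : (2 : ℤ) ∣ (b * pO n t).re + n * (b * pO n t).im := by
      have ht := h.zero
      subst ht
      rw [lin_iff, re_mul, im_mul]
      simp only [pO]
      obtain ⟨c, hc⟩ : ∃ c : ℤ, (n : ℤ) = ((n % 2 : ℕ) : ℤ) + 2 * c := ⟨(n : ℤ) / 2, by omega⟩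
      rcases Nat.mod_two_eq_zero_or_one n with h1 | h1
      · rw [h1] at hc ⊢
        push_cast at hc ⊢
        exact ⟨-(c * b.im), by linear_combination (-b.im) * hc⟩
      · rw [h1] at hc ⊢
        push_cast at hc ⊢
        exact ⟨b.re - c * b.im, by linear_combination (-b.im) * hc⟩
    have ha : (2 : ℤ) ∣ (a * 2 : OO n t).re ∧ (2 : ℤ) ∣ (a * 2 : OO n t).im :=
      (two_dvd_iff _).1 (dvd_mul_left _ _)
    have e : v.re + n * v.im = ((a * 2 : OO n t).re + n * (a * 2 : OO n t).im) +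
        ((b * pO n t).re + n * (b * pO n t).im) := by
      rw [← hab, QuadraticAlgebra.re_add, QuadraticAlgebra.im_add]
      ring
    rw [e]
    exact dvd_add (dvd_add ha.1 (ha.2.mul_left _)) hb
  · have h2 : (2 : OO n t) ∈ pp n t := Ideal.subset_span (by simp)
    have h3 : pO n t ∈ pp n t := Ideal.subset_span (by simp)
    rintro (⟨a, rfl⟩ | ⟨a, ha⟩)
    · exact (pp n t).mul_mem_right _ h2
    · have e : v = 2 * a + pO n t := by linear_combination ha
      rw [e]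
      exact (pp n t).add_mem ((pp n t).mul_mem_right _ h2) h3

theorem mem_pp_Nm [Rmf n t] (v : OO n t) : v ∈ pp n t ↔ (2 : ℤ) ∣ Nm v := by
  rw [mem_pp, cases_iff, Nm_iff]

theorem pp_prime [Rmf n t] : (pp n t).IsPrime := by
  refine Ideal.isPrime_iff.2 ⟨?_, ?_⟩
  · intro h1
    have h3 : (1 : OO n t) ∈ pp n t := by
      rw [h1]
      trivial
    rw [mem_pp_Nm, Nm_one] at h3
    omega
  · intro x y hxy
    rw [mem_pp_Nm, Nm_mul] at hxy
    rw [mem_pp_Nm, mem_pp_Nm]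
    exact Int.prime_two.dvd_or_dvd hxy

theorem pp_sq [Rmf n t] : pp n t * pp n t = sp (2 : OO n t) := by
  have h2 : (2 : OO n t) ∈ pp n t := Ideal.subset_span (by simp)
  have h3 : pO n t ∈ pp n t := Ideal.subset_span (by simp)
  apply le_antisymm
  · rw [Ideal.mul_le]
    intro r hr s hs
    rw [Ideal.mem_span_singleton]
    rcases (mem_pp r).1 hr with h | ⟨a, ha⟩
    · exact h.mul_right _
    · rcases (mem_pp s).1 hs with h | ⟨b, hb⟩
      · exact h.mul_left _
      · have e : r * s = 2 * (a * s + pO n t * b) + pO n t ^ 2 := by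
          have e1 : r = 2 * a + pO n t := by linear_combination ha
          have e2 : s = 2 * b + pO n t := by linear_combination hb
          rw [e1, e2]
          ring
        rw [e]
        exact dvd_add (dvd_mul_right _ _) pO_sq
  · rw [Ideal.span_singleton_le_iff_mem]
    obtain ⟨c, e, hce⟩ := pO_two (n := n) (t := t)
    have e1 : (2 : OO n t) = 2 * (2 * (c : OO n t)) + (2 * (e : OO n t)) * pO n t - pO n t * pO n t := by
      linear_combination hce
    have h4 : (2 : OO n t) * (2 * (c : OO n t)) + (2 * (e : OO n t)) * pO n t - pO n t * pO n t ∈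
        pp n t * pp n t :=
      Ideal.sub_mem _ (Ideal.add_mem _ (Ideal.mul_mem_mul h2 ((pp n t).mul_mem_right _ h2))
        (Ideal.mul_mem_mul ((pp n t).mul_mem_right _ h2) h3)) (Ideal.mul_mem_mul h3 h3)
    rwa [← e1] at h4

theorem pp_ne [Rmf n t] : pp n t ≠ ⊥ := by
  intro h
  have h2 : (2 : OO n t) ∈ pp n t := Ideal.subset_span (by simp)
  rw [h, Ideal.mem_bot] at h2
  have h1 := congrArg Nm h2
  rw [← two_cast, Nm_nat, Nm_zero] at h1
  norm_num at h1

theorem pp_max [Rmf n t] : (pp n t).IsMaximal := (pp_prime (n := n) (t := t)).isMaximal pp_ne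

/-- An ideal not prime to `2` is contained in `pp`. -/
theorem le_pp [Rmf n t] {a : Ideal (OO n t)} (h : ¬ PrI a 2) : a ≤ pp n t := by
  unfold PrI at h
  obtain ⟨M, hM, hle⟩ := Ideal.exists_le_maximal _ h
  have h2 : sp (2 : OO n t) ≤ M := by
    have := le_sup_right.trans hle
    rwa [two_cast] at this
  rw [← pp_sq] at h2
  have h3 : pp n t ≤ M := by
    rcases hM.isPrime.mul_le.1 h2 with h4 | h4 <;> exact h4
  rw [(pp_max (n := n) (t := t)).eq_of_le hM.ne_top h3]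
  exact le_sup_left.trans hle

theorem pp_NI [Rmf n t] : NI (pp n t) = 2 := by
  have h1 := (aO2 n t).2.2.2.2.1 (pp n t) (pp n t)
  have h3 := (aO2 n t).2.2.2.1 (2 : OO n t)
  have h4 : Nm (2 : OO n t) = 4 := by
    rw [← two_cast, Nm_nat]
    norm_num
  rw [h4] at h3
  have h5 : NI (sp (2 : OO n t)) = 4 := by exact_mod_cast h3
  rw [pp_sq, h5] at h1
  nlinarith

theorem pp_fac [Rmf n t] (a : Ideal (OO n t)) (ha : a ≠ ⊥) :
    ∃ (j : ℕ) (a' : Ideal (OO n t)), a' ≠ ⊥ ∧ PrI a' 2 ∧ a = pp n t ^ j * a' := by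
  obtain ⟨N, hN⟩ : ∃ N : ℕ, NI a < N := ⟨NI a + 1, Nat.lt_succ_self _⟩
  induction N generalizing a with
  | zero => omega
  | succ N ih =>
    by_cases h : PrI a 2
    · exact ⟨0, a, ha, h, by rw [pow_zero, one_mul]⟩
    · obtain ⟨a1, rfl⟩ := Ideal.dvd_iff_le.2 (le_pp h)
      have ha1 : a1 ≠ ⊥ := by
        rintro rfl
        exact ha (Ideal.mul_bot _)
      have h1 : NI (pp n t * a1) = 2 * NI a1 := by
        rw [(aO2 n t).2.2.2.2.1, pp_NI]
      have h2 : NI a1 ≠ 0 := fun h3 => ha1 (((aO2 n t).2.2.2.2.2.1 a1).1 h3)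
      obtain ⟨j, a', h3, h4, h5⟩ := ih a1 ha1 (by omega)
      exact ⟨j + 1, a', h3, h4, by rw [h5, pow_succ']; ring⟩

theorem sO4 : S_O4 := by
  intro n t h
  have hcop : ∀ v : OO n t, Cop v 2 ↔ ¬ (2 : ℤ) ∣ Nm v := by
    intro v
    unfold Cop
    push_cast
    constructor
    · intro h1 h3
      have h4 : IsUnit (2 : ℤ) := (h1.symm.isUnit_of_dvd h3)
      rw [Int.isUnit_iff] at h4
      omega
    · intro h1
      exact ((Int.prime_two.coprime_iff_not_dvd).2 h1).symm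
  have hcc : ∀ v : OO n t, Cop v 2 ↔ (2 : OO n t) ∣ v - 1 ∨ (2 : OO n t) ∣ v - (1 + pO n t) := fun v => by
    rw [hcop, Nm_iff, cop_cases]
  have hm := rm_mod (n := n) (t := t)
  refine ⟨hm, pp_prime, pp_NI, pp_sq, ?_, ?_, fun v => by rw [hcop, mem_pp_Nm], hcop, mem_pp, two_dvd_iff,
    hcc, ?_, ?_, ?_, ?_, pp_fac⟩
  · ext v
    rw [(aO3 n t).1, mem_pp_Nm, mem_pp_Nm, Nm_cjO]
  · have h3 : pO n t ∈ pp n t := Ideal.subset_span (by simp)
    have h4 : sp (pO n t) ≤ pp n t := (Ideal.span_singleton_le_iff_mem _).2 h3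
    obtain ⟨c, hc⟩ := Ideal.dvd_iff_le.2 h4
    have hN : Nm (pO n t) % 4 = 2 := by
      have ht := h.zero
      subst ht
      unfold Nm
      simp only [pO]
      rcases hm with h1 | h1
      · have h2 : n % 2 = 1 := by omega
        rw [h2]
        push_cast
        omega
      · have h2 : n % 2 = 0 := by omega
        rw [h2]
        push_cast
        omega
    have hI := (aO2 n t).2.2.2.1 (pO n t)
    rw [hc, (aO2 n t).2.2.2.2.1, pp_NI] at hI
    push_cast at hI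
    refine ⟨c, ?_, ?_, hc⟩
    · rintro rfl
      rw [((aO2 n t).2.2.2.2.2.1 ⊥).2 rfl] at hI
      push_cast at hI
      omega
    · by_contra h5
      obtain ⟨c', rfl⟩ := Ideal.dvd_iff_le.2 (le_pp h5)
      rw [(aO2 n t).2.2.2.2.1, pp_NI] at hI
      push_cast at hI
      omega
  · intro v hv
    rcases (hcc v).1 hv with ⟨q, hq⟩ | ⟨q, hq⟩
    · have e : v = 1 + 2 * q := by linear_combination hq
      exact ⟨2 * q + 2 * q ^ 2, by rw [e]; ring⟩
    · have e : v ^ 2 - 1 = 2 * (pO n t + 2 * (1 + pO n t) * q + 2 * q ^ 2) + pO n t ^ 2 := by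
        have e1 : v = 1 + pO n t + 2 * q := by linear_combination hq
        rw [e1]
        ring
      rw [e]
      exact dvd_add (dvd_mul_right _ _) pO_sq
  · intro v
    have ht := h.zero
    subst ht
    rw [two_dvd_iff, QuadraticAlgebra.re_sub, QuadraticAlgebra.im_sub]
    simp only [cjO]
    push_cast
    constructor
    · exact ⟨0, by ring⟩
    · exact ⟨v.im, by ring⟩
  · intro v hv h1
    rw [hcop, Nm_iff] at hv
    have ht := h.zero
    subst ht
    unfold Nm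
    push_cast
    obtain ⟨c, hc⟩ : ∃ c : ℤ, (n : ℤ) = 4 * c + 1 := ⟨(n : ℤ) / 4, by omega⟩
    generalize v.re = x at *
    generalize v.im = y at *
    rw [hc] at hv ⊢
    rcases Int.even_or_odd' x with ⟨a, ha | ha⟩ <;> rcases Int.even_or_odd' y with ⟨b, hb | hb⟩ <;>
      subst ha <;> subst hb
    · exact absurd ⟨a + (4 * c + 1) * b, by ring⟩ hv
    · exact ⟨a ^ 2 + c * (2 * b + 1) ^ 2 + b ^ 2 + b, by ring⟩
    · exact ⟨a ^ 2 + a + (4 * c + 1) * b ^ 2, by ring⟩
    · exact absurd ⟨a + 1 + (4 * c + 1) * b + 2 * c, by ring⟩ hv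
  · intro v hv h1
    rw [hcop, Nm_iff] at hv
    have ht := h.zero
    subst ht
    unfold Nm
    push_cast
    obtain ⟨c, hc⟩ : ∃ c : ℤ, (n : ℤ) = 4 * c + 2 := ⟨(n : ℤ) / 4, by omega⟩
    generalize v.re = x at *
    generalize v.im = y at *
    rw [hc] at hv ⊢
    have h8 : ∀ z : ℤ, ∃ s : ℤ, (2 * z + 1) ^ 2 = 1 + 8 * s := by
      intro z
      rcases Int.even_or_odd' z with ⟨a, ha | ha⟩ <;> rw [ha]
      · exact ⟨2 * a ^ 2 + a, by ring⟩
      · exact ⟨2 * a ^ 2 + 3 * a + 1, by ring⟩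
    rcases Int.even_or_odd' x with ⟨a, ha | ha⟩
    · subst ha
      exact absurd ⟨a + (2 * c + 1) * y, by ring⟩ hv
    · subst ha
      obtain ⟨s, hs⟩ := h8 a
      rcases Int.even_or_odd' y with ⟨b, hb | hb⟩
      · subst hb
        left
        exact ⟨s + (2 * c + 1) * b ^ 2, by rw [hs]; ring⟩
      · subst hb
        right
        obtain ⟨r, hr⟩ := h8 b
        exact ⟨s + (4 * c + 2) * r, by rw [hs, hr]; ring⟩

end Pool.Agent.DR
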