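import Pool.Agent.Lib.DR.O.O4

/-!
# Theorem DR, part L, module L6: the points of order `pp` and of order two (ramified case)
-/

set_option autoImplicit false

open scoped Pointwise nonZeroDivisors

noncomputable section

namespace Pool.Agent.DR

open Pool.Agent.MuZ Pool.Agent.FW NumberField IsDedekindDomain Pool.Agent.DN

theorem sL6 : S_L6 := by
  intro n t h b hb
  have h2p : (2 : OO n t) ∈ pp n t := Ideal.subset_span (by simp)
  have hpO : pO n t ∈ pp n t := Ideal.subset_span (by simp)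
  have hO4 := sO4 n t
  refine ⟨?_, ?_, ?_, ?_, ?_, ?_⟩
  · obtain ⟨z, hz, hz'⟩ := (aL3 n t (pp n t) b pp_ne hb).1
    refine ⟨z, hz, fun h1 => ?_⟩
    refine hz' ⊤ (lt_of_le_of_ne le_top (pp_prime (n := n) (t := t)).ne_top) ?_
    rwa [Ideal.top_mul]
  · obtain ⟨g, hg, hg'⟩ := (aL3 n t (pp n t) b pp_ne hb).1
    obtain ⟨hv, hgen⟩ := (aL3 n t (pp n t) b pp_ne hb).2.1 g hg hg'
    intro T hT T' hT' hTn hTn'
    obtain ⟨v, hv1⟩ := hgen T hT
    obtain ⟨v', hv1'⟩ := hgen T' hT'
    have hvp : v ∉ pp n t := fun h1 => hTn ((lam_sub_iff hv1).2 ((hv v).2 h1))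
    have hvp' : v' ∉ pp n t := fun h1 => hTn' ((lam_sub_iff hv1').2 ((hv v').2 h1))
    have hone : ∀ u : OO n t, u ∉ pp n t → u - 1 ∈ pp n t := by
      intro u hu
      rw [mem_pp]
      have h3 : Cop u 2 := (hO4.2.2.2.2.2.2.1 u).2 hu
      rcases (hO4.2.2.2.2.2.2.2.2.2.2.1 u).1 h3 with h4 | h4
      · exact Or.inl h4
      · refine Or.inr ?_
        have e : u - 1 - pO n t = u - (1 + pO n t) := by ring
        rwa [e]
    have h5 : v - v' ∈ pp n t := by
      have e : v - v' = (v - 1) - (v' - 1) := by ring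
      rw [e]
      exact (pp n t).sub_mem (hone v hvp) (hone v' hvp')
    have h6 : toC (v - v') * g ∈ Lam b := (hv _).2 h5
    have e : T - T' = (T - toC v * g) - (T' - toC v' * g) + toC (v - v') * g := by
      rw [toC_sub]
      ring
    rw [e]
    exact lam_add (lam_sub hv1 hv1') h6
  · intro T hT
    have h1 := lam_prod.1 hT 2 h2p
    rwa [toC_two] at h1
  · intro T hT
    rw [lam_prod]
    intro v hv
    have h1 : v * pO n t ∈ pp n t * pp n t := Ideal.mul_mem_mul hv hpO
    rw [pp_sq, Ideal.mem_span_singleton] at h1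
    obtain ⟨u, hu⟩ := h1
    have e : toC v * (toC (pO n t) * T) = toC u * (2 * T) := by
      rw [← mul_assoc, ← toC_mul, hu, toC_mul, toC_two]
      ring
    rw [e]
    exact lam_mul u hT
  · intro T hT hTn h1
    apply hTn
    rw [lam_prod]
    intro v hv
    obtain ⟨a, c, hac⟩ := Ideal.mem_span_pair.1 hv
    have e : toC v * T = toC a * (2 * T) + toC c * (toC (pO n t) * T) := by
      rw [← hac, toC_add, toC_mul, toC_mul, toC_two]
      ring
    rw [e]
    exact lam_add (lam_mul a hT) (lam_mul c h1)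
  · intro j T
    have e : pp n t ^ (2 * j) * b = sp ((2 : OO n t) ^ j) * b := by
      rw [pow_mul, sq, pp_sq, Ideal.span_singleton_pow]
    rw [e, lam_sp, toC_pow, toC_two]

end Pool.Agent.DR
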